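import Pool.Agent.L5helper59.CG.Lower
import Pool.Agent.Y672.DG.Tri

set_option autoImplicit false

/-! # Formulas with determinant gates and comparator circuits: triangles
(copy-edit of Pool/Agent/Y672/DG/Tri.lean) -/

namespace Pool.Agent.L5helper59.CG.Tri

open Finset
open Pool.Agent.TH697.Form (IsProb)
open Pool.Agent.TH697.Row (ApproximatesOn)
open Pool.Agent.TH457.Ary.Tri
open Pool.Agent.TH457.Ary.Sat (exists_k logb_four_pow)
open Pool.Agent.Y672.DG.Tri (arith arithL)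
open Pool.Agent.Y638.RF.Tri (asks logb_m)

/-- The lower bound for triangle detection. -/
theorem tri (m c w : ℕ) (hm : 1000 ≤ m) (hc : 1 ≤ c) (hw : 1 ≤ w) (Ω : Type) [Fintype Ω] (μ : Ω → ℝ)
    (hμ : IsProb μ) (s : ℕ) (F : Ω → Fml (Fin m) (fun _ => Edge (2 * m)) w (m ^ c))
    (hs : ∀ ω, (F ω).size ≤ s)
    (hF : ApproximatesOn μ (fun ω => (F ω).accepts) Simple triangle) :
    (m : ℝ) ^ 3 ≤ 50000000 * c * w ^ 3 * s ^ 2 := by
  classical
  have hw' : (1 : ℝ) ≤ w := by exact_mod_cast hw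
  have hc' : (1 : ℝ) ≤ c := by exact_mod_cast hc
  have hm' : (1000 : ℝ) ≤ m := by exact_mod_cast hm
  by_cases hsm : m ^ 2 ≤ s
  · have h1 : (m : ℝ) ^ 2 ≤ s := by exact_mod_cast hsm
    have h2 : (m : ℝ) ^ 3 ≤ (s : ℝ) ^ 2 := by
      calc (m : ℝ) ^ 3 ≤ ((m : ℝ) ^ 2) ^ 2 := by
            rw [← pow_mul]
            exact pow_le_pow_right₀ (by linarith) (by norm_num)
        _ ≤ (s : ℝ) ^ 2 := pow_le_pow_left₀ (by positivity) h1 2
    have h3 : (1 : ℝ) ≤ w ^ 3 := one_le_pow₀ hw'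
    have h4 : (1 : ℝ) ≤ 50000000 * c * w ^ 3 := by nlinarith
    have h5 : 0 ≤ (s : ℝ) ^ 2 := by positivity
    nlinarith
  obtain ⟨k, hk, hk1, hk2⟩ := exists_k (m := m) (by omega)
  have hM : 4 * (4 * m ^ 2) * (5 * s + 1) + 2 + s ≤ m ^ 5 := by
    have h1 : s < m ^ 2 := by omega
    have h2 : 4 * (4 * m ^ 2) * (5 * s + 1) ≤ 4 * (4 * m ^ 2) * (5 * m ^ 2) :=
      Nat.mul_le_mul_left _ (by omega)
    have h3 : 4 * (4 * m ^ 2) * (5 * m ^ 2) = 80 * m ^ 4 := by ring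
    have h4 : m ^ 2 ≤ m ^ 4 := Nat.pow_le_pow_right (by omega) (by norm_num)
    have h5 : 1000 * m ^ 4 ≤ m ^ 5 := by
      calc 1000 * m ^ 4 ≤ m * m ^ 4 := Nat.mul_le_mul_right _ hm
        _ = m ^ 5 := by ring
    have h6 : 1 ≤ m ^ 4 := Nat.one_le_pow _ _ (by omega)
    omega
  have hk' : (4 : ℝ) ≤ k := by exact_mod_cast hk
  have hLL : 1 + 5 * Real.logb 2 ((m ^ 5 : ℕ) : ℝ) +
      ((w : ℝ) - 1) * Real.logb 2 ((m ^ c : ℕ) : ℝ) ≤ 63 * c * w * k := by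
    rw [Nat.cast_pow m 5, Nat.cast_pow m c, Real.logb_pow, Real.logb_pow]
    exact arithL (l := Real.logb 2 (m : ℝ)) hk' hc' hw' (logb_m hk (by omega) hk2)
  have h7 := bound_sq (D := fun _ : Fin m => Edge (2 * m)) μ hμ F Simple triangle hF s hs
    (Nat.one_le_pow _ _ (by omega)) hw (4 * m ^ 2) (m ^ 5) hM 0 (by norm_num) univ
    (T := Fin (M m k) × Fin k)
    (fun p _ => asks (by omega) hk1 p) ((m : ℝ) * k * (1 / 2))
    (by nlinarith) (by
      have := card_T (m := m) (k := k) (by omega) hk1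
      linarith) (63 * c * w * k) hLL
  rw [card_univ (α := Fin m), Fintype.card_fin] at h7
  exact arith hk' hc' hw' h7

end Pool.Agent.L5helper59.CG.Tri
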