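import Mathlib
import Pool.Agent.L5helper59.CG.Tri

/-!
# Triangle detection: formulas with comparator circuits and determinants

The input is a list of the `m` edges of a simple graph on `2 m` vertices; the question is whether the
graph has a triangle. The items of the input are the `m` entries of the list; the words have the
length `c log₂ m`.

A formula (`Fml`) is built from real constants, arbitrary real functions of one item, and arbitrary
real functions of `w` words, where each word is a function of one item with `m ^ c` values, by the
gates

* `pos`: is the value positive? (`1` or `0`),
* `sym`: any fan-in, any real function of the number of positive inputs,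
* `det`: the determinant of a real matrix of any order whose entries are formulas (sums and products
  are determinants of order two),
* `reg`: is the matrix over an arbitrary field, of any order, whose entry `(a, b)` is `c' a b` or
  `c a b`, according to whether the formula `(a, b)` is positive or not, regular? (`1` or `0`),
* `cc`: a comparator circuit with any number of wires, any list of comparators and negations and an
  output wire, where the wire `j` carries at first the bit which tells whether the formula `j` is
  positive (`1` or `0`).

The size is the number of the leaves which are not constants, plus the number of wires which lead to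
gates `sym`; constants, comparators, negations and the orders of the matrices are free.

We show that random formulas of size at most `s` with error probability at most `1 / 3` need
`m ^ 3 ≤ 5 * 10 ^ 7 * c w ^ 3 s ^ 2`, that is, size of order `m ^ (3 / 2)`. This is the bound of
`Pool.Agent.Results.MP_ad5e8e_lc.DeterminantGates`, now with comparator circuits of any size as gates:
sorting networks and stable matching, which are not known to be in `NC`, may be used for free.

Proof. By the coding of helper457 (`Pool.Agent.TH457.Ary.Tri`) each entry of the list can ask for about
`m log₂ m / 4` bits which are encoded in the other entries. If the bits on all wires but `r` are fixed,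
a comparator circuit has at most `(2 r + 2) ^ (4 r ^ 2 + 1)` functions of the remaining bits
(`Pool.Agent.L5helper59.CG.cc_count`), since at most `2 r ^ 2` comparators meet two incomparable
functions; this is combined with the Schur complement count for determinants (`Pool.Agent.Y73.DG`).
-/

set_option autoImplicit false

namespace Pool.Agent.Results.MP_ad5e8e_lc.ComparatorGates

open Pool.Agent.TH697.Form (IsProb)
open Pool.Agent.TH697.Row (ApproximatesOn)
open Pool.Agent.TH457.Ary.Tri (Edge Simple triangle)
open Pool.Agent.L5helper59.CG (Fml)

theorem result : ∀ m c w : ℕ, 1000 ≤ m → 1 ≤ c → 1 ≤ w →
    ∀ (Ω : Type) [Fintype Ω] (μ : Ω → ℝ), IsProb μ →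
      ∀ (s : ℕ) (F : Ω → Fml (Fin m) (fun _ => Edge (2 * m)) w (m ^ c)),
        (∀ ω, (F ω).size ≤ s) →
        ApproximatesOn μ (fun ω => (F ω).accepts) Simple triangle →
        (m : ℝ) ^ 3 ≤ 50000000 * c * w ^ 3 * s ^ 2 :=
  fun m c w hm hc hw Ω _ μ hμ s F hs hF =>
    Pool.Agent.L5helper59.CG.Tri.tri m c w hm hc hw Ω μ hμ s F hs hF

end Pool.Agent.Results.MP_ad5e8e_lc.ComparatorGates
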