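import Pool.Agent.L5helper59.CG.Defs

set_option autoImplicit false

/-! # Few subfunctions of comparator circuits -/

namespace Pool.Agent.L5helper59.CG

open Finset

section tuple

variable {τ Y : Type} [DecidableEq τ]

/-- one comparator between the tokens `s` and `t` -/
def sstep (s t : τ) (G : τ → Y → Bool) : τ → Y → Bool :=
  Function.update (Function.update G s (G s ⊓ G t)) t (G s ⊔ G t)

theorem sstep_fst {s t : τ} (h : s ≠ t) (G : τ → Y → Bool) : sstep s t G s = G s ⊓ G t := by
  unfold sstep
  rw [Function.update_of_ne h, Function.update_self]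

theorem sstep_snd (s t : τ) (G : τ → Y → Bool) : sstep s t G t = G s ⊔ G t := by
  unfold sstep
  rw [Function.update_self]

theorem sstep_of_ne {s t u : τ} (h1 : u ≠ s) (h2 : u ≠ t) (G : τ → Y → Bool) :
    sstep s t G u = G u := by
  unfold sstep
  rw [Function.update_of_ne h2, Function.update_of_ne h1]

variable [Fintype τ]

open Classical in
/-- the number of comparable pairs -/
noncomputable def Phi (G : τ → Y → Bool) : ℕ := ∑ u, ∑ v, if G u ≤ G v then 1 else 0

omit [DecidableEq τ] in
theorem Phi_le (G : τ → Y → Bool) : Phi G ≤ Fintype.card τ ^ 2 := by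
  classical
  unfold Phi
  calc ∑ u, ∑ v, (if G u ≤ G v then 1 else 0) ≤ ∑ _u : τ, ∑ _v : τ, 1 :=
        sum_le_sum fun u _ => sum_le_sum fun v _ => by split_ifs <;> omega
    _ = Fintype.card τ ^ 2 := by simp [sq]

theorem sum_split {s t : τ} (h : s ≠ t) (f : τ → ℕ) :
    ∑ u, f u = f s + f t + ∑ u ∈ (univ.erase s).erase t, f u := by
  rw [← add_sum_erase univ f (mem_univ s),
    ← add_sum_erase (univ.erase s) f (mem_erase.2 ⟨h.symm, mem_univ t⟩)]
  omega

/-- A comparator between two incomparable tokens creates a comparable pair. -/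
theorem Phi_sstep {s t : τ} (hst : s ≠ t) (G : τ → Y → Bool) (h1 : ¬ G s ≤ G t)
    (h2 : ¬ G t ≤ G s) : Phi G + 1 ≤ Phi (sstep s t G) := by
  classical
  obtain ⟨G', hG'⟩ : ∃ G', G' = sstep s t G := ⟨_, rfl⟩
  have es : G' s = G s ⊓ G t := by rw [hG']; exact sstep_fst hst G
  have et : G' t = G s ⊔ G t := by rw [hG']; exact sstep_snd s t G
  have eo : ∀ u ∈ (univ.erase s).erase t, G' u = G u := by
    intro u hu
    rw [mem_erase, mem_erase] at hu
    rw [hG']
    exact sstep_of_ne hu.2.1 hu.1 G
  rw [← hG']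
  unfold Phi
  rw [sum_split hst, sum_split hst (fun u => ∑ v, if G' u ≤ G' v then 1 else 0)]
  rw [sum_split hst (fun v => if G s ≤ G v then 1 else 0),
    sum_split hst (fun v => if G t ≤ G v then 1 else 0),
    sum_split hst (fun v => if G' s ≤ G' v then 1 else 0),
    sum_split hst (fun v => if G' t ≤ G' v then 1 else 0)]
  have e1 : ∑ u ∈ (univ.erase s).erase t, ∑ v, (if G u ≤ G v then 1 else 0) =
      ∑ u ∈ (univ.erase s).erase t, ((if G u ≤ G s then 1 else 0) + (if G u ≤ G t then 1 else 0)) +
      ∑ u ∈ (univ.erase s).erase t, ∑ v ∈ (univ.erase s).erase t, (if G u ≤ G v then 1 else 0) := by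
    rw [← sum_add_distrib]
    exact sum_congr rfl fun u _ => sum_split hst _
  have e2 : ∑ u ∈ (univ.erase s).erase t, ∑ v, (if G' u ≤ G' v then 1 else 0) =
      ∑ u ∈ (univ.erase s).erase t, ((if G' u ≤ G' s then 1 else 0) +
        (if G' u ≤ G' t then 1 else 0)) +
      ∑ u ∈ (univ.erase s).erase t, ∑ v ∈ (univ.erase s).erase t,
        (if G' u ≤ G' v then 1 else 0) := by
    rw [← sum_add_distrib]
    exact sum_congr rfl fun u _ => sum_split hst _
  have e3 : ∑ u ∈ (univ.erase s).erase t, ∑ v ∈ (univ.erase s).erase t,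
      (if G' u ≤ G' v then 1 else 0) = ∑ u ∈ (univ.erase s).erase t,
        ∑ v ∈ (univ.erase s).erase t, (if G u ≤ G v then 1 else 0) := by
    refine sum_congr rfl fun u hu => sum_congr rfl fun v hv => ?_
    rw [eo u hu, eo v hv]
  rw [e1, e2, e3]
  have k1 : ∑ u ∈ (univ.erase s).erase t, ((if G u ≤ G s then 1 else 0) +
      (if G u ≤ G t then 1 else 0)) ≤ ∑ u ∈ (univ.erase s).erase t,
        ((if G' u ≤ G' s then 1 else 0) + (if G' u ≤ G' t then 1 else 0)) := by
    apply sum_le_sum
    intro u hu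
    rw [eo u hu, es, et]
    have a1 : G u ≤ G s → G u ≤ G s ⊔ G t := le_sup_of_le_left
    have a2 : G u ≤ G t → G u ≤ G s ⊔ G t := le_sup_of_le_right
    have a3 : G u ≤ G s → G u ≤ G t → G u ≤ G s ⊓ G t := le_inf
    split_ifs <;> first | omega | (exfalso; tauto)
  have k2 : ∑ v ∈ (univ.erase s).erase t, (if G s ≤ G v then 1 else 0) +
      ∑ v ∈ (univ.erase s).erase t, (if G t ≤ G v then 1 else 0) ≤
      ∑ v ∈ (univ.erase s).erase t, (if G' s ≤ G' v then 1 else 0) +
      ∑ v ∈ (univ.erase s).erase t, (if G' t ≤ G' v then 1 else 0) := by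
    rw [← sum_add_distrib, ← sum_add_distrib]
    apply sum_le_sum
    intro u hu
    rw [eo u hu, es, et]
    have a1 : G s ≤ G u → G s ⊓ G t ≤ G u := inf_le_of_left_le
    have a2 : G t ≤ G u → G s ⊓ G t ≤ G u := inf_le_of_right_le
    have a3 : G s ≤ G u → G t ≤ G u → G s ⊔ G t ≤ G u := sup_le
    split_ifs <;> first | omega | (exfalso; tauto)
  have k3 : G' s ≤ G' t := by
    rw [es, et]
    exact inf_le_of_left_le le_sup_left
  rw [if_neg h1, if_neg h2, if_pos (le_refl (G s)), if_pos (le_refl (G t)), if_pos k3,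
    if_pos (le_refl (G' s)), if_pos (le_refl (G' t))]
  omega

end tuple

section dual

variable {κ Y : Type} [DecidableEq κ] [Fintype κ]

/-- A comparator between the tokens `(i, b)` and `(j, c)`, together with the dual comparator. -/
def dstep (p : (κ × Bool) × (κ × Bool)) (G : κ × Bool → Y → Bool) : κ × Bool → Y → Bool :=
  sstep (p.2.1, !p.2.2) (p.1.1, !p.1.2) (sstep p.1 p.2 G)

/-- The tokens come in complementary pairs. -/
def Dual (G : κ × Bool → Y → Bool) : Prop := ∀ i b, G (i, !b) = fun v => !G (i, b) v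

theorem compl_le {x y : Y → Bool} : (fun v => !x v) ≤ (fun v => !y v) ↔ y ≤ x := by
  constructor
  · intro h v
    have := h v
    simp only at this
    revert this
    cases x v <;> cases y v <;> simp
  · intro h v
    have := h v
    simp only
    revert this
    cases x v <;> cases y v <;> simp

omit [Fintype κ] in
theorem dstep_val {i j : κ} (hij : i ≠ j) (b c : Bool) {G : κ × Bool → Y → Bool} (hG : Dual G) :
    dstep ((i, b), (j, c)) G (i, b) = G (i, b) ⊓ G (j, c) ∧
    dstep ((i, b), (j, c)) G (j, c) = G (i, b) ⊔ G (j, c) ∧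
    dstep ((i, b), (j, c)) G (i, !b) = (fun v => !(G (i, b) v && G (j, c) v)) ∧
    dstep ((i, b), (j, c)) G (j, !c) = (fun v => !(G (i, b) v || G (j, c) v)) ∧
    ∀ k d, k ≠ i → k ≠ j → dstep ((i, b), (j, c)) G (k, d) = G (k, d) := by
  have n1 : ((i, b) : κ × Bool) ≠ (j, c) := fun h => hij (congrArg Prod.fst h)
  have n2 : ((j, !c) : κ × Bool) ≠ (i, !b) := fun h => hij (congrArg Prod.fst h).symm
  have n3 : ((i, b) : κ × Bool) ≠ (j, !c) := fun h => hij (congrArg Prod.fst h)
  have n4 : ((i, b) : κ × Bool) ≠ (i, !b) := by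
    intro h
    have := congrArg Prod.snd h
    simp at this
  have n5 : ((j, c) : κ × Bool) ≠ (j, !c) := by
    intro h
    have := congrArg Prod.snd h
    simp at this
  have n6 : ((j, c) : κ × Bool) ≠ (i, !b) := fun h => hij (congrArg Prod.fst h).symm
  have n7 : ((i, !b) : κ × Bool) ≠ (j, c) := fun h => hij (congrArg Prod.fst h)
  have n8 : ((j, !c) : κ × Bool) ≠ (i, b) := fun h => hij (congrArg Prod.fst h).symm
  unfold dstep
  simp only
  refine ⟨?_, ?_, ?_, ?_, ?_⟩
  · rw [sstep_of_ne n3 n4, sstep_fst n1]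
  · rw [sstep_of_ne n5 n6, sstep_snd]
  · rw [sstep_snd, sstep_of_ne n8 n5.symm, sstep_of_ne n4.symm n7, hG, hG]
    funext v
    simp only [Pi.sup_apply]
    cases G (i, b) v <;> cases G (j, c) v <;> rfl
  · rw [sstep_fst n2, sstep_of_ne n8 n5.symm, sstep_of_ne n4.symm n7, hG, hG]
    funext v
    simp only [Pi.inf_apply]
    cases G (i, b) v <;> cases G (j, c) v <;> rfl
  · intro k d h1 h2
    have m1 : ∀ e e' : Bool, ((k, e) : κ × Bool) ≠ (i, e') := fun e e' h => h1 (congrArg Prod.fst h)
    have m2 : ∀ e e' : Bool, ((k, e) : κ × Bool) ≠ (j, e') := fun e e' h => h2 (congrArg Prod.fst h)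
    rw [sstep_of_ne (m2 _ _) (m1 _ _), sstep_of_ne (m1 _ _) (m2 _ _)]

omit [Fintype κ] in
theorem dual_dstep {i j : κ} (hij : i ≠ j) (b c : Bool) {G : κ × Bool → Y → Bool} (hG : Dual G) :
    Dual (dstep ((i, b), (j, c)) G) := by
  obtain ⟨h1, h2, h3, h4, h5⟩ := dstep_val hij b c hG
  intro k d
  by_cases hki : k = i
  · subst hki
    by_cases hd : d = b
    · subst hd
      rw [h1, h3]
      rfl
    · have hd' : d = !b := by
        cases d <;> cases b <;> simp_all
      rw [hd', Bool.not_not, h1, h3]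
      funext v
      simp only [Bool.not_not]
      rfl
  · by_cases hkj : k = j
    · subst hkj
      by_cases hd : d = c
      · subst hd
        rw [h2, h4]
        rfl
      · have hd' : d = !c := by
          cases d <;> cases c <;> simp_all
        rw [hd', Bool.not_not, h2, h4]
        funext v
        simp only [Bool.not_not]
        rfl
    · rw [h5 k _ hki hkj, h5 k _ hki hkj]
      exact hG k d

theorem Phi_dstep {i j : κ} (hij : i ≠ j) (b c : Bool) {G : κ × Bool → Y → Bool} (hG : Dual G)
    (h1 : ¬ G (i, b) ≤ G (j, c)) (h2 : ¬ G (j, c) ≤ G (i, b)) :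
    Phi G + 2 ≤ Phi (dstep ((i, b), (j, c)) G) := by
  have n1 : ((i, b) : κ × Bool) ≠ (j, c) := fun h => hij (congrArg Prod.fst h)
  have n2 : ((j, !c) : κ × Bool) ≠ (i, !b) := fun h => hij (congrArg Prod.fst h).symm
  have n4 : ((i, b) : κ × Bool) ≠ (i, !b) := by
    intro h
    have := congrArg Prod.snd h
    simp at this
  have n5 : ((j, c) : κ × Bool) ≠ (j, !c) := by
    intro h
    have := congrArg Prod.snd h
    simp at this
  have n7 : ((i, !b) : κ × Bool) ≠ (j, c) := fun h => hij (congrArg Prod.fst h)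
  have n8 : ((j, !c) : κ × Bool) ≠ (i, b) := fun h => hij (congrArg Prod.fst h).symm
  have k1 := Phi_sstep n1 G h1 h2
  have e1 : sstep (i, b) (j, c) G (j, !c) = fun v => !G (j, c) v := by
    rw [sstep_of_ne n8 n5.symm, hG]
  have e2 : sstep (i, b) (j, c) G (i, !b) = fun v => !G (i, b) v := by
    rw [sstep_of_ne n4.symm n7, hG]
  have k2 := Phi_sstep n2 (sstep (i, b) (j, c) G)
    (by
      rw [e1, e2]
      intro h
      exact h1 (compl_le.1 h))
    (by
      rw [e1, e2]
      intro h
      exact h2 (compl_le.1 h))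
  unfold dstep
  simp only
  omega

open Classical in
/-- The tuples which are reached with at most `k` steps. -/
noncomputable def reach [Fintype Y] (G₀ : κ × Bool → Y → Bool) : ℕ → Finset (κ × Bool → Y → Bool)
  | 0 => {G₀}
  | k + 1 => reach G₀ k ∪ ((reach G₀ k) ×ˢ (univ : Finset ((κ × Bool) × (κ × Bool)))).image
      (fun p => dstep p.2 p.1)

theorem reach_mono [Fintype Y] (G₀ : κ × Bool → Y → Bool) {k l : ℕ} (h : k ≤ l) :
    reach G₀ k ⊆ reach G₀ l := by
  classical
  induction l, h using Nat.le_induction with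
  | base => exact Subset.refl _
  | succ l _ ih => exact ih.trans (by rw [reach]; exact subset_union_left)

theorem reach_step [Fintype Y] {G₀ G : κ × Bool → Y → Bool} {k : ℕ} (h : G ∈ reach G₀ k)
    (p : (κ × Bool) × (κ × Bool)) : dstep p G ∈ reach G₀ (k + 1) := by
  classical
  rw [reach, mem_union]
  right
  rw [mem_image]
  exact ⟨(G, p), mem_product.2 ⟨h, mem_univ _⟩, rfl⟩

theorem card_reach [Fintype Y] (G₀ : κ × Bool → Y → Bool) (k : ℕ) :
    (reach G₀ k).card ≤ (4 * Fintype.card κ ^ 2 + 1) ^ k := by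
  classical
  induction k with
  | zero => simp [reach]
  | succ k ih =>
    rw [reach]
    refine (card_union_le _ _).trans ?_
    have h1 : (((reach G₀ k) ×ˢ (univ : Finset ((κ × Bool) × (κ × Bool)))).image
      (fun p => dstep p.2 p.1)).card ≤ (reach G₀ k).card * (4 * Fintype.card κ ^ 2) := by
      refine card_image_le.trans ?_
      rw [card_product, card_univ, Fintype.card_prod, Fintype.card_prod, Fintype.card_bool]
      apply Nat.mul_le_mul_left
      have : Fintype.card κ * 2 * (Fintype.card κ * 2) = 4 * Fintype.card κ ^ 2 := by ring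
      rw [this]
    rw [pow_succ]
    calc (reach G₀ k).card + _ ≤ (reach G₀ k).card + (reach G₀ k).card *
          (4 * Fintype.card κ ^ 2) := Nat.add_le_add_left h1 _
      _ = (reach G₀ k).card * (4 * Fintype.card κ ^ 2 + 1) := by ring
      _ ≤ _ := Nat.mul_le_mul_right _ ih

/-- The functions on the wires `a` of a comparator circuit: the tokens of a reachable tuple, up to
complements, on different wires, and constants on the other wires. -/
def Good [Fintype Y] (G₀ : κ × Bool → Y → Bool) {n : ℕ} (S : Fin n → Y → Bool) : Prop :=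
  ∃ (k : ℕ) (G : κ × Bool → Y → Bool) (pos : κ → Fin n) (sg : κ → Bool), G ∈ reach G₀ k ∧
    Dual G ∧ 2 * k ≤ Phi G ∧ Function.Injective pos ∧ (∀ e, S (pos e) = G (e, sg e)) ∧
    ∀ a, (∀ e, pos e ≠ a) → ∃ c : Bool, S a = fun _ => c

theorem Good.swap [Fintype Y] {G₀ : κ × Bool → Y → Bool} {n : ℕ} {S : Fin n → Y → Bool}
    (h : Good G₀ S) (a b : Fin n) : Good G₀ (fun x => S (Equiv.swap a b x)) := by
  obtain ⟨k, G, pos, sg, h1, h2, h3, h4, h5, h6⟩ := h
  refine ⟨k, G, fun e => Equiv.swap a b (pos e), sg, h1, h2, h3,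
    (Equiv.swap a b).injective.comp h4, fun e => ?_, fun x hx => ?_⟩
  · simp only [Equiv.swap_apply_self]
    exact h5 e
  · apply h6
    intro e he
    apply hx e
    change Equiv.swap a b (pos e) = x
    rw [he, Equiv.swap_apply_self]

theorem Good.cmp [Fintype Y] {G₀ : κ × Bool → Y → Bool} {n : ℕ} {S : Fin n → Y → Bool}
    (h : Good G₀ S) (a b : Fin n) :
    Good G₀ (fun x v => (Gate.cmp a b).run (fun j => S j v) x) := by
  by_cases hab : a = b
  · subst hab
    have e : (fun x v => (Gate.cmp a a).run (fun j => S j v) x) = S := by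
      funext x v
      simp only [Gate.run]
      by_cases hx : x = a
      · subst hx
        rw [Function.update_self, Bool.or_self]
      · rw [Function.update_of_ne hx, Function.update_of_ne hx]
    rw [e]
    exact h
  have va : (fun v => (Gate.cmp a b).run (fun j => S j v) a) = S a ⊓ S b := by
    funext v
    simp only [Gate.run]
    rw [Function.update_of_ne hab, Function.update_self]
    rfl
  have vb : (fun v => (Gate.cmp a b).run (fun j => S j v) b) = S a ⊔ S b := by
    funext v
    simp only [Gate.run]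
    rw [Function.update_self]
    rfl
  have vo : ∀ x, x ≠ a → x ≠ b → (fun v => (Gate.cmp a b).run (fun j => S j v) x) = S x := by
    intro x h1 h2
    funext v
    simp only [Gate.run]
    rw [Function.update_of_ne h2, Function.update_of_ne h1]
  obtain ⟨S', hS'⟩ : ∃ S' : Fin n → Y → Bool,
    S' = (fun x v => (Gate.cmp a b).run (fun j => S j v) x) := ⟨_, rfl⟩
  have va' : S' a = S a ⊓ S b := by rw [hS']; exact va
  have vb' : S' b = S a ⊔ S b := by rw [hS']; exact vb
  have vo' : ∀ x, x ≠ a → x ≠ b → S' x = S x := by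
    intro x h1 h2
    rw [hS']
    exact vo x h1 h2
  rw [← hS']
  by_cases h1 : S a ≤ S b
  · have e : S' = S := by
      funext x
      by_cases hx : x = a
      · rw [hx, va', inf_eq_left.2 h1]
      · by_cases hx2 : x = b
        · rw [hx2, vb', sup_eq_right.2 h1]
        · exact vo' x hx hx2
    rw [e]
    exact h
  by_cases h2 : S b ≤ S a
  · have e : S' = fun x => S (Equiv.swap a b x) := by
      funext x
      by_cases hx : x = a
      · rw [hx, va', inf_eq_right.2 h2, Equiv.swap_apply_left]
      · by_cases hx2 : x = b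
        · rw [hx2, vb', sup_eq_left.2 h2, Equiv.swap_apply_right]
        · rw [vo' x hx hx2, Equiv.swap_apply_of_ne_of_ne hx hx2]
    rw [e]
    exact h.swap a b
  -- both wires carry tokens
  obtain ⟨k, G, pos, sg, g1, g2, g3, g4, g5, g6⟩ := h
  have hca : ∃ e, pos e = a := by
    by_contra hc
    push Not at hc
    obtain ⟨c, hc'⟩ := g6 a hc
    cases c
    · apply h1
      rw [hc']
      intro v
      exact Bool.false_le _
    · apply h2
      rw [hc']
      intro v
      exact Bool.le_true _
  have hcb : ∃ e, pos e = b := by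
    by_contra hc
    push Not at hc
    obtain ⟨c, hc'⟩ := g6 b hc
    cases c
    · apply h2
      rw [hc']
      intro v
      exact Bool.false_le _
    · apply h1
      rw [hc']
      intro v
      exact Bool.le_true _
  obtain ⟨i, hi⟩ := hca
  obtain ⟨j, hj⟩ := hcb
  have hij : i ≠ j := by
    intro hij
    apply hab
    rw [← hi, ← hj, hij]
  have hSa : S a = G (i, sg i) := by rw [← hi]; exact g5 i
  have hSb : S b = G (j, sg j) := by rw [← hj]; exact g5 j
  rw [hSa, hSb] at h1 h2
  obtain ⟨d1, d2, d3, d4, d5⟩ := dstep_val hij (sg i) (sg j) g2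
  refine ⟨k + 1, dstep ((i, sg i), (j, sg j)) G, pos, sg, reach_step g1 _, dual_dstep hij _ _ g2,
    ?_, g4, fun e => ?_, fun x hx => ?_⟩
  · have := Phi_dstep hij (sg i) (sg j) g2 h1 h2
    omega
  · by_cases hei : e = i
    · rw [hei, hi, va', hSa, hSb, d1]
    · by_cases hej : e = j
      · rw [hej, hj, vb', hSa, hSb, d2]
      · rw [d5 e _ hei hej, ← g5 e]
        apply vo'
        · intro hh
          exact hei (g4 (hh.trans hi.symm))
        · intro hh
          exact hej (g4 (hh.trans hj.symm))
  · obtain ⟨c, hc⟩ := g6 x hx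
    refine ⟨c, ?_⟩
    rw [vo' x ?_ ?_, hc]
    · intro hh
      exact hx i (hi.trans hh.symm)
    · intro hh
      exact hx j (hj.trans hh.symm)

theorem Good.neg [Fintype Y] {G₀ : κ × Bool → Y → Bool} {n : ℕ} {S : Fin n → Y → Bool}
    (h : Good G₀ S) (a : Fin n) : Good G₀ (fun x v => (Gate.neg a).run (fun j => S j v) x) := by
  have va : (fun v => (Gate.neg a).run (fun j => S j v) a) = fun v => !S a v := by
    funext v
    simp only [Gate.run]
    rw [Function.update_self]
  have vo : ∀ x, x ≠ a → (fun v => (Gate.neg a).run (fun j => S j v) x) = S x := by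
    intro x h1
    funext v
    simp only [Gate.run]
    rw [Function.update_of_ne h1]
  obtain ⟨k, G, pos, sg, g1, g2, g3, g4, g5, g6⟩ := h
  by_cases ha : ∃ e, pos e = a
  · obtain ⟨i, hi⟩ := ha
    refine ⟨k, G, pos, Function.update sg i (!sg i), g1, g2, g3, g4, fun e => ?_, fun x hx => ?_⟩
    · by_cases hei : e = i
      · subst hei
        rw [Function.update_self, hi]
        refine va.trans ?_
        rw [g2, ← g5, hi]
      · rw [Function.update_of_ne hei, ← g5 e]
        apply vo
        intro hh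
        exact hei (g4 (hh.trans hi.symm))
    · obtain ⟨c, hc⟩ := g6 x hx
      refine ⟨c, ?_⟩
      rw [← hc]
      apply vo
      intro hh
      exact hx i (hi.trans hh.symm)
  · refine ⟨k, G, pos, sg, g1, g2, g3, g4, fun e => ?_, fun x hx => ?_⟩
    · rw [← g5 e]
      apply vo
      intro hh
      exact ha ⟨e, hh⟩
    · obtain ⟨c, hc⟩ := g6 x hx
      by_cases hxa : x = a
      · subst hxa
        refine ⟨!c, va.trans ?_⟩
        rw [hc]
      · refine ⟨c, ?_⟩
        rw [← hc]
        exact vo x hxa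

theorem Good.run [Fintype Y] {G₀ : κ × Bool → Y → Bool} {n : ℕ} (g : List (Gate n))
    {S : Fin n → Y → Bool} (h : Good G₀ S) : Good G₀ (fun x v => run g (fun j => S j v) x) := by
  induction g generalizing S with
  | nil => exact h
  | cons c g ih =>
    cases c with
    | cmp a b => exact ih (h.cmp a b)
    | neg a => exact ih (h.neg a)

end dual

open Classical in
/-- **Few subfunctions of comparator circuits.** The wires in `E` carry given functions, the other
wires carry constants `A`. -/
theorem cc_count {Y : Type} [Fintype Y] (n M : ℕ) (E : Finset (Fin n)) (g : List (Gate n))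
    (o : Fin n) (β : Fin n → Y → Bool) (hM : 2 * E.card + 2 ≤ M) :
    ∃ T : Finset (Y → Bool), T.card ≤ M ^ (4 * E.card ^ 2 + 1) ∧
      ∀ A : Fin n → Bool, (fun v => run g (fun j => if j ∈ E then β j v else A j) o) ∈ T := by
  obtain ⟨G₀, hG₀⟩ : ∃ G₀ : {e // e ∈ E} × Bool → Y → Bool,
    ∀ t v, G₀ t v = if t.2 then β t.1.1 v else !β t.1.1 v := ⟨_, fun _ _ => rfl⟩
  have hcard : Fintype.card {e // e ∈ E} = E.card := Fintype.card_coe E
  refine ⟨(univ : Finset Bool).image (fun c _ => c) ∪
    ((reach G₀ (2 * E.card ^ 2)) ×ˢ (univ : Finset ({e // e ∈ E} × Bool))).image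
      (fun p => p.1 p.2), ?_, fun A => ?_⟩
  · have h1 := card_reach G₀ (2 * E.card ^ 2)
    rw [hcard] at h1
    have h2 : (reach G₀ (2 * E.card ^ 2)).card ≤ M ^ (4 * E.card ^ 2) := by
      refine h1.trans ?_
      calc (4 * E.card ^ 2 + 1) ^ (2 * E.card ^ 2) ≤ (M ^ 2) ^ (2 * E.card ^ 2) := by
            apply Nat.pow_le_pow_left
            calc 4 * E.card ^ 2 + 1 ≤ (2 * E.card + 2) ^ 2 := by nlinarith
              _ ≤ M ^ 2 := Nat.pow_le_pow_left hM 2
        _ = M ^ (4 * E.card ^ 2) := by rw [← pow_mul]; ring_nf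
    have h3 : ((univ : Finset Bool).image (fun (c : Bool) (_ : Y) => c)).card ≤ 2 := by
      refine card_image_le.trans ?_
      simp
    have h4 : (((reach G₀ (2 * E.card ^ 2)) ×ˢ (univ : Finset ({e // e ∈ E} × Bool))).image
        (fun p => p.1 p.2)).card ≤ M ^ (4 * E.card ^ 2) * (2 * E.card) := by
      refine card_image_le.trans ?_
      rw [card_product, card_univ, Fintype.card_prod, hcard, Fintype.card_bool, mul_comm E.card 2]
      exact Nat.mul_le_mul_right _ h2
    have h5 : 1 ≤ M ^ (4 * E.card ^ 2) := Nat.one_le_pow _ _ (by omega)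
    calc _ ≤ 2 + M ^ (4 * E.card ^ 2) * (2 * E.card) :=
          (card_union_le _ _).trans (Nat.add_le_add h3 h4)
      _ ≤ M ^ (4 * E.card ^ 2) * 2 + M ^ (4 * E.card ^ 2) * (2 * E.card) := by omega
      _ = M ^ (4 * E.card ^ 2) * (2 * E.card + 2) := by ring
      _ ≤ M ^ (4 * E.card ^ 2) * M := Nat.mul_le_mul_left _ hM
      _ = _ := (pow_succ _ _).symm
  · have hgood : Good G₀ (fun (j : Fin n) v => if j ∈ E then β j v else A j) := by
      refine ⟨0, G₀, fun e => e.1, fun _ => true, by simp [reach], ?_, Nat.zero_le _,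
        Subtype.val_injective, fun e => ?_, fun a ha => ?_⟩
      · intro i b
        funext v
        rw [hG₀, hG₀]
        cases b <;> simp
      · funext v
        rw [hG₀]
        change (if e.1 ∈ E then β e.1 v else A e.1) = _
        rw [if_pos e.2]
        rfl
      · refine ⟨A a, ?_⟩
        funext v
        change (if a ∈ E then β a v else A a) = _
        rw [if_neg]
        intro hh
        exact ha ⟨a, hh⟩ rfl
    obtain ⟨k, G, pos, sg, g1, g2, g3, g4, g5, g6⟩ := hgood.run g
    have hk : k ≤ 2 * E.card ^ 2 := by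
      have h6 := Phi_le G
      rw [Fintype.card_prod, hcard, Fintype.card_bool] at h6
      have : (E.card * 2) ^ 2 = 4 * E.card ^ 2 := by ring
      omega
    rw [mem_union]
    by_cases ho : ∃ e, pos e = o
    · right
      obtain ⟨e, he⟩ := ho
      rw [mem_image]
      refine ⟨(G, (e, sg e)), mem_product.2 ⟨reach_mono G₀ hk g1, mem_univ _⟩, ?_⟩
      simp only
      rw [← g5 e, he]
    · left
      push Not at ho
      obtain ⟨c, hc⟩ := g6 o ho
      rw [mem_image]
      exact ⟨c, mem_univ _, hc.symm⟩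

end Pool.Agent.L5helper59.CG
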