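import Pool.Agent.Y638.RF.Defs
import Mathlib.LinearAlgebra.Matrix.Determinant.Basic

set_option autoImplicit false

/-! # Real formulas with determinant gates and comparator circuits -/

namespace Pool.Agent.L5helper59.CG

open Finset
open Pool.Agent.Y638.RF (Word)

/-- A gate of a comparator circuit on `n` wires: a comparator or a negation. -/
inductive Gate (n : ℕ) : Type
  | cmp : Fin n → Fin n → Gate n
  | neg : Fin n → Gate n

/-- The bits of the wires after the gate: the comparator puts the minimum on its first wire and the
maximum on its second wire. -/
def Gate.run {n : ℕ} : Gate n → (Fin n → Bool) → Fin n → Bool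
  | .cmp a b, x => Function.update (Function.update x a (x a && x b)) b (x a || x b)
  | .neg a, x => Function.update x a (!x a)

/-- The bits of the wires after all gates. -/
def run {n : ℕ} (g : List (Gate n)) (x : Fin n → Bool) : Fin n → Bool :=
  g.foldl (fun y c => c.run y) x

/-- Formulas: constants, arbitrary real functions of one item, arbitrary real functions of `w` words,
the sign test `pos` (is the value positive? `1` or `0`), gates `sym` of any fan-in `k` whose value is
an arbitrary real function of the number of the inputs which are positive, determinants `det` of real
matrices of any order `m` whose entries are formulas (sums and products are determinants of order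
two), tests `reg`: is the matrix over the field `K` of any order `m` whose entry `(a, b)` is `c' a b`
or `c a b`, according to whether the formula `(a, b)` is positive or not, regular? (`1` or `0`), and
comparator circuits `cc` with any number `n` of wires, any list of gates (comparators and negations)
and an output wire, where the wire `j` carries at first the bit which tells whether the formula `j` is
positive (`1` or `0`). -/
inductive Fml (ι : Type) (D : ι → Type) (w q : ℕ) : Type 1
  | const : ℝ → Fml ι D w q
  | item : (i : ι) → (D i → ℝ) → Fml ι D w q
  | word : Word ι D w q → Fml ι D w q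
  | pos : Fml ι D w q → Fml ι D w q
  | sym : (k : ℕ) → (ℕ → ℝ) → (Fin k → Fml ι D w q) → Fml ι D w q
  | det : (m : ℕ) → (Fin m → Fin m → Fml ι D w q) → Fml ι D w q
  | reg : (K : Type) → Field K → (m : ℕ) → (c c' : Fin m → Fin m → K) →
      (Fin m → Fin m → Fml ι D w q) → Fml ι D w q
  | cc : (n : ℕ) → List (Gate n) → Fin n → (Fin n → Fml ι D w q) → Fml ι D w q

namespace Fml

variable {ι : Type} {D : ι → Type} {w q : ℕ}

open Classical in
/-- The value of the formula. -/
noncomputable def eval : Fml ι D w q → (∀ i, D i) → ℝ
  | const c, _ => c
  | item i f, x => f (x i)
  | word τ, x => τ.out (fun k => τ.view k (x (τ.item k)))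
  | pos F, x => if 0 < F.eval x then 1 else 0
  | sym _ h F, x => h (univ.filter (fun j => 0 < (F j).eval x)).card
  | det _ F, x => (Matrix.of fun a b => (F a b).eval x).det
  | reg _ _ _ c c' F, x =>
      if (Matrix.of fun a b => if 0 < (F a b).eval x then c' a b else c a b).det ≠ 0 then 1 else 0
  | cc _ g o F, x => if run g (fun j => decide (0 < (F j).eval x)) o = true then 1 else 0

/-- The size: the number of the leaves which are not constants, and of the wires which lead to gates
`sym`. -/
def size : Fml ι D w q → ℕ
  | const _ => 0
  | item _ _ => 1
  | word _ => 1
  | pos F => F.size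
  | sym k _ F => k + ∑ j, (F j).size
  | det _ F => ∑ a, ∑ b, (F a b).size
  | reg _ _ _ _ _ F => ∑ a, ∑ b, (F a b).size
  | cc _ _ _ F => ∑ j, (F j).size

/-- The formula accepts the input if its value is positive. -/
noncomputable def accepts (F : Fml ι D w q) (x : ∀ i, D i) : Bool := decide (0 < F.eval x)

end Fml

end Pool.Agent.L5helper59.CG
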