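import Pool.Agent.L5helper59.CG.Lower
import Pool.Agent.Y638.RF.Blk
import Mathlib.LinearAlgebra.Matrix.ToLinearEquiv

set_option autoImplicit false

/-! # Sparse matrices which are given by the list of their entries -/

namespace Pool.Agent.L5helper59.CG.Sparse

open Finset

/-- The matrix with the ones at the listed positions (repeated positions are added). -/
def mat (F : Type) [Field F] {m n : ℕ} (x : Fin m → Fin n × Fin n) : Matrix (Fin n) (Fin n) F :=
  Matrix.of fun a b => ∑ p, if x p = (a, b) then 1 else 0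

open Classical in
/-- Is the matrix regular? -/
noncomputable def regular (F : Type) [Field F] {m n : ℕ} (x : Fin m → Fin n × Fin n) : Bool :=
  decide ((mat F x).det ≠ 0)

open Classical in
theorem regular_iff (F : Type) [Field F] {m n : ℕ} (x : Fin m → Fin n × Fin n) :
    regular F x = true ↔ (mat F x).det ≠ 0 := by
  unfold regular
  exact decide_eq_true_iff

variable {F : Type} [Field F] {n : ℕ}

/-- the sum over the entries of one row -/
def row {ι : Type} [Fintype ι] (y : ι → Fin n × Fin n) (v : Fin n → F) (i : Fin n) : F :=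
  ∑ p, if (y p).1 = i then v (y p).2 else 0

theorem mulVec_eq {m : ℕ} (x : Fin m → Fin n × Fin n) (v : Fin n → F) (i : Fin n) :
    (mat F x).mulVec v i = row x v i := by
  unfold mat row
  rw [Matrix.mulVec, dotProduct]
  simp only [Matrix.of_apply]
  simp_rw [sum_mul]
  rw [sum_comm]
  refine sum_congr rfl fun p _ => ?_
  by_cases h : (x p).1 = i
  · rw [if_pos h]
    rw [sum_eq_single (x p).2]
    · rw [if_pos (by rw [← h]), one_mul]
    · intro b _ hb
      rw [if_neg, zero_mul]
      intro hh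
      apply hb
      rw [hh]
    · intro hh
      exact absurd (mem_univ _) hh
  · rw [if_neg h]
    apply sum_eq_zero
    intro b _
    rw [if_neg, zero_mul]
    intro hh
    apply h
    rw [hh]

theorem row_comp {ι κ : Type} [Fintype ι] [Fintype κ] (e : κ ≃ ι) (y : ι → Fin n × Fin n)
    (v : Fin n → F) (i : Fin n) : row (fun p => y (e p)) v i = row y v i := by
  unfold row
  exact Equiv.sum_comp e (fun p => if (y p).1 = i then v (y p).2 else 0)

/-- the vertices -/
abbrev V (h K : ℕ) : Type := Bool ⊕ (Fin h ⊕ ((Fin K → Bool) ⊕ (Fin K ⊕ Fin K)))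

/-- the items -/
abbrev It (n h K e : ℕ) : Type := Fin e ⊕ (Fin n ⊕ (Fin h ⊕ (((Fin K → Bool) × Fin K) ⊕ Fin K)))

section graph

variable {h K e : ℕ} (φ : V h K ↪ Fin n)

/-- the pads -/
abbrev v0 : Fin n := φ (.inl false)
abbrev v1 : Fin n := φ (.inl true)
/-- the words -/
abbrev va (t : Fin h) : Fin n := φ (.inr (.inl t))
/-- the values of the words -/
abbrev vw (u : Fin K → Bool) : Fin n := φ (.inr (.inr (.inl u)))
/-- the bits -/
abbrev vc (k : Fin K) : Fin n := φ (.inr (.inr (.inr (.inl k))))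
/-- the bits, once more -/
abbrev vb (k : Fin K) : Fin n := φ (.inr (.inr (.inr (.inr k))))

/-- the entries of the matrix -/
def ent (z : Fin h × Fin K → Bool) : It n h K e → Fin n × Fin n
  | .inl _ => (v0 φ, v1 φ)
  | .inr (.inl i) => (i, i)
  | .inr (.inr (.inl t)) => (va φ t, vw φ (fun k => z (t, k)))
  | .inr (.inr (.inr (.inl (u, k)))) => if u k then (vw φ u, vc φ k) else (v0 φ, v1 φ)
  | .inr (.inr (.inr (.inr k))) => (vc φ k, vb φ k)

/-- the question -/
def asked (z : Fin h × Fin K → Bool) (p₀ : Fin e) (t₀ : Fin h) (k₀ : Fin K) :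
    It n h K e → Fin n × Fin n
  | .inl p => if p = p₀ then (vb φ k₀, va φ t₀) else (v0 φ, v1 φ)
  | .inr q => ent φ z (.inr q : It n h K e)

theorem row_asked (z : Fin h × Fin K → Bool) (p₀ : Fin e) (t₀ : Fin h) (k₀ : Fin K)
    (v : Fin n → F) (i : Fin n) : row (asked φ z p₀ t₀ k₀) v i =
      (∑ p : Fin e, if p = p₀ then (if vb φ k₀ = i then v (va φ t₀) else 0)
        else (if v0 φ = i then v (v1 φ) else 0)) + (v i +
      ((∑ t, if va φ t = i then v (vw φ (fun k => z (t, k))) else 0) +
      ((∑ q : (Fin K → Bool) × Fin K, if q.1 q.2 then (if vw φ q.1 = i then v (vc φ q.2) else 0)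
        else (if v0 φ = i then v (v1 φ) else 0)) +
      ∑ k, if vc φ k = i then v (vb φ k) else 0))) := by
  unfold row
  rw [Fintype.sum_sum_type, Fintype.sum_sum_type, Fintype.sum_sum_type, Fintype.sum_sum_type]
  congr 1
  · refine sum_congr rfl fun p _ => ?_
    by_cases hp : p = p₀
    · simp only [asked, if_pos hp]
    · simp only [asked, if_neg hp]
  congr 1
  · have hj : ∀ j : Fin n, (if (asked φ z p₀ t₀ k₀ (Sum.inr (Sum.inl j))).1 = i then
        v (asked φ z p₀ t₀ k₀ (Sum.inr (Sum.inl j))).2 else 0) = if j = i then v j else 0 :=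
      fun _ => rfl
    rw [sum_congr rfl fun j _ => hj j, sum_ite_eq' univ i v, if_pos (mem_univ _)]
  congr 1
  congr 1
  refine sum_congr rfl fun q _ => ?_
  simp only [asked, ent]
  split_ifs <;> rfl

theorem inj_iff {a b : V h K} : φ a = φ b ↔ a = b := φ.injective.eq_iff

theorem row_v1 (z : Fin h × Fin K → Bool) (p₀ : Fin e) (t₀ : Fin h) (k₀ : Fin K)
    (v : Fin n → F) : row (asked φ z p₀ t₀ k₀) v (v1 φ) = v (v1 φ) := by
  rw [row_asked]
  simp

theorem row_va (z : Fin h × Fin K → Bool) (p₀ : Fin e) (t₀ : Fin h) (k₀ : Fin K)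
    (v : Fin n → F) (t : Fin h) : row (asked φ z p₀ t₀ k₀) v (va φ t) =
      v (va φ t) + v (vw φ (fun k => z (t, k))) := by
  rw [row_asked]
  simp

theorem row_vw (z : Fin h × Fin K → Bool) (p₀ : Fin e) (t₀ : Fin h) (k₀ : Fin K)
    (v : Fin n → F) (u : Fin K → Bool) : row (asked φ z p₀ t₀ k₀) v (vw φ u) =
      v (vw φ u) + ∑ k, if u k then v (vc φ k) else 0 := by
  rw [row_asked]
  simp only [inj_iff]
  simp only [Sum.inr.injEq, Sum.inl.injEq, reduceCtorEq, if_false, ite_self, sum_const_zero,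
    zero_add, add_zero]
  congr 1
  rw [Fintype.sum_prod_type]
  rw [sum_eq_single u]
  · simp
  · intro u' _ hu'
    simp [hu']
  · intro hu
    exact absurd (mem_univ _) hu

theorem row_vc (z : Fin h × Fin K → Bool) (p₀ : Fin e) (t₀ : Fin h) (k₀ : Fin K)
    (v : Fin n → F) (k : Fin K) : row (asked φ z p₀ t₀ k₀) v (vc φ k) =
      v (vc φ k) + v (vb φ k) := by
  rw [row_asked]
  simp

theorem row_vb (z : Fin h × Fin K → Bool) (p₀ : Fin e) (t₀ : Fin h) (k₀ : Fin K)
    (v : Fin n → F) (k : Fin K) : row (asked φ z p₀ t₀ k₀) v (vb φ k) =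
      (if k = k₀ then v (va φ t₀) else 0) + v (vb φ k) := by
  rw [row_asked]
  simp only [inj_iff]
  simp only [Sum.inr.injEq, reduceCtorEq, if_false, ite_self, sum_const_zero, add_zero]
  congr 1
  rw [Finset.sum_ite_eq' univ p₀, if_pos (mem_univ _)]
  simp only [eq_comm]

theorem row_other (z : Fin h × Fin K → Bool) (p₀ : Fin e) (t₀ : Fin h) (k₀ : Fin K)
    (v : Fin n → F) (i : Fin n) (hi : ∀ a, φ a ≠ i) : row (asked φ z p₀ t₀ k₀) v i = v i := by
  rw [row_asked]
  simp [hi]

theorem row_v0 (z : Fin h × Fin K → Bool) (p₀ : Fin e) (t₀ : Fin h) (k₀ : Fin K)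
    (v : Fin n → F) (hv : v (v1 φ) = 0) : row (asked φ z p₀ t₀ k₀) v (v0 φ) = v (v0 φ) := by
  rw [row_asked]
  simp [hv]

/-- the kernel -/
theorem kernel_iff (z : Fin h × Fin K → Bool) (p₀ : Fin e) (t₀ : Fin h) (k₀ : Fin K) :
    (∃ v : Fin n → F, v ≠ 0 ∧ ∀ i, row (asked φ z p₀ t₀ k₀) v i = 0) ↔ z (t₀, k₀) = true := by
  constructor
  · rintro ⟨v, hv, hrow⟩
    by_contra hz
    apply hv
    have h1 : v (v1 φ) = 0 := by
      rw [← row_v1 φ z p₀ t₀ k₀ v]
      exact hrow _
    have h0 : v (v0 φ) = 0 := by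
      rw [← row_v0 φ z p₀ t₀ k₀ v h1]
      exact hrow _
    have hb : ∀ k, k ≠ k₀ → v (vb φ k) = 0 := by
      intro k hk
      have h2 := hrow (vb φ k)
      rw [row_vb, if_neg hk, zero_add] at h2
      exact h2
    have hc : ∀ k, v (vc φ k) = -v (vb φ k) := by
      intro k
      have h2 := hrow (vc φ k)
      rw [row_vc] at h2
      exact eq_neg_of_add_eq_zero_left h2
    have hw : ∀ u : Fin K → Bool, v (vw φ u) = if u k₀ then v (vb φ k₀) else 0 := by
      intro u
      have h2 := hrow (vw φ u)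
      rw [row_vw] at h2
      have h3 : ∑ k, (if u k then v (vc φ k) else 0) = if u k₀ then v (vc φ k₀) else 0 := by
        apply sum_eq_single k₀
        · intro k _ hk
          rw [hc, hb k hk, neg_zero, ite_self]
        · intro hh
          exact absurd (mem_univ _) hh
      rw [h3] at h2
      rw [eq_neg_of_add_eq_zero_left h2]
      split_ifs
      · rw [hc, neg_neg]
      · exact neg_zero
    have ha : ∀ t, v (va φ t) = -v (vw φ (fun k => z (t, k))) := by
      intro t
      have h2 := hrow (va φ t)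
      rw [row_va] at h2
      exact eq_neg_of_add_eq_zero_left h2
    have hb0 : v (vb φ k₀) = 0 := by
      have h2 := hrow (vb φ k₀)
      rw [row_vb, if_pos rfl, ha, hw, if_neg hz, neg_zero, zero_add] at h2
      exact h2
    have hb' : ∀ k, v (vb φ k) = 0 := by
      intro k
      by_cases hk : k = k₀
      · rw [hk]
        exact hb0
      · exact hb k hk
    have hw' : ∀ u, v (vw φ u) = 0 := by
      intro u
      rw [hw, hb0, ite_self]
    funext i
    by_cases hi : ∃ a, φ a = i
    · obtain ⟨a, rfl⟩ := hi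
      rcases a with a | t | u | k | k
      · cases a
        · exact h0
        · exact h1
      · change v (va φ t) = 0
        rw [ha, hw', neg_zero]
      · exact hw' u
      · change v (vc φ k) = 0
        rw [hc, hb', neg_zero]
      · exact hb' k
    · push Not at hi
      rw [← row_other φ z p₀ t₀ k₀ v i hi]
      exact hrow i
  · intro hz
    obtain ⟨f, hf⟩ : ∃ f : V h K → F, ∀ a, f a = match a with
      | .inl _ => 0
      | .inr (.inl t) => if z (t, k₀) then -1 else 0
      | .inr (.inr (.inl u)) => if u k₀ then 1 else 0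
      | .inr (.inr (.inr (.inl k))) => if k = k₀ then -1 else 0
      | .inr (.inr (.inr (.inr k))) => if k = k₀ then 1 else 0 := ⟨_, fun _ => rfl⟩
    obtain ⟨v, hv⟩ : ∃ v : Fin n → F, v = Function.extend φ f (fun _ => 0) := ⟨_, rfl⟩
    have hva : ∀ a, v (φ a) = f a := by
      intro a
      rw [hv]
      exact φ.injective.extend_apply f (fun _ => 0) a
    have hv1 : v (v1 φ) = 0 := by
      rw [hva, hf]
    refine ⟨v, ?_, fun i => ?_⟩
    · intro h0
      have h1 := hva (.inr (.inr (.inr (.inr k₀))))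
      rw [h0, hf] at h1
      simp at h1
    · by_cases hi : ∃ a, φ a = i
      · obtain ⟨a, rfl⟩ := hi
        rcases a with a | t | u | k | k
        · cases a
          · change row _ v (v0 φ) = 0
            rw [row_v0 φ z p₀ t₀ k₀ v hv1, hva, hf]
          · change row _ v (v1 φ) = 0
            rw [row_v1, hv1]
        · change row _ v (va φ t) = 0
          rw [row_va, hva, hva, hf, hf]
          simp only
          split_ifs <;> simp
        · change row _ v (vw φ u) = 0
          rw [row_vw, hva, hf]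
          simp only
          have h3 : ∑ k, (if u k then v (vc φ k) else 0) = if u k₀ then v (vc φ k₀) else 0 := by
            apply sum_eq_single k₀
            · intro k _ hk
              rw [hva, hf]
              simp only
              rw [if_neg hk, ite_self]
            · intro hh
              exact absurd (mem_univ _) hh
          rw [h3, hva, hf]
          simp only
          split_ifs <;> simp
        · change row _ v (vc φ k) = 0
          rw [row_vc, hva, hva, hf, hf]
          simp only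
          split_ifs <;> simp
        · change row _ v (vb φ k) = 0
          rw [row_vb, hva, hva, hf, hf]
          simp only
          rw [if_pos hz]
          split_ifs <;> simp
      · push Not at hi
        rw [row_other φ z p₀ t₀ k₀ v i hi, hv]
        exact Function.extend_apply' f (fun _ => 0) i (fun ⟨a, ha⟩ => hi a ha)

include φ in
/-- Every early item can ask for all bits. -/
theorem asks {m : ℕ} (eq : It n h K e ≃ Fin m) (p₀ : Fin e) :
    Pool.Agent.Y638.RF.Asks (D := fun _ : Fin m => Fin n × Fin n) (Fin h × Fin K) (n ^ 2) 0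
      (fun _ => True) (regular F) (eq (.inl p₀)) := by
  have hq := Pool.Agent.TH457.Ary.queries_of_update (T := Fin h × Fin K)
    (D := fun _ : Fin m => Fin n × Fin n) (fun _ => True) (regular F) (eq (.inl p₀))
    (fun _ => 0) (fun t _ => (vb φ t.2, va φ t.1))
    (fun z p => ent φ (fun s => !z s) (eq.symm p)) (fun _ _ _ _ => rfl) (fun _ _ => trivial)
    (by
      intro t z
      have e1 : Function.update (fun p => ent φ (fun s => !z s) (eq.symm p)) (eq (.inl p₀))
          (vb φ t.2, va φ t.1) =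
          fun p => asked φ (fun s => !z s) p₀ t.1 t.2 (eq.symm p) := by
        funext p
        by_cases hp : p = eq (.inl p₀)
        · rw [hp, Function.update_self, Equiv.symm_apply_apply]
          simp [asked]
        · rw [Function.update_of_ne hp]
          obtain ⟨a, rfl⟩ := eq.surjective p
          rw [Equiv.symm_apply_apply]
          rcases a with a | a
          · have : a ≠ p₀ := by
              intro hh
              exact hp (by rw [hh])
            simp [asked, ent, this]
          · rfl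
      rw [e1]
      have h1 := kernel_iff (F := F) φ (fun s => !z s) p₀ t.1 t.2
      have h2 : (mat F (fun p => asked φ (fun s => !z s) p₀ t.1 t.2 (eq.symm p))).det = 0 ↔
          (!z t) = true := by
        rw [← Matrix.exists_mulVec_eq_zero_iff]
        rw [← h1]
        constructor
        · rintro ⟨v, hv, hv2⟩
          refine ⟨v, hv, fun i => ?_⟩
          rw [← row_comp eq.symm, ← mulVec_eq, hv2]
          rfl
        · rintro ⟨v, hv, hv2⟩
          refine ⟨v, hv, ?_⟩
          funext i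
          rw [mulVec_eq, row_comp eq.symm, hv2 i]
          rfl
      rw [Bool.eq_iff_iff, regular_iff, Ne, h2]
      cases z t <;> simp)
  have hA := Pool.Agent.Y638.RF.asks_of_queries hq
  rw [Fintype.card_prod, Fintype.card_fin, ← sq] at hA
  exact hA

end graph

theorem params {n : ℕ} (hn : 4096 ≤ n) : ∃ h K e : ℕ, 2 + h + 2 ^ K + 2 * K ≤ n ∧
    e + n + h + 2 ^ K * K + K = 4 * n ∧ 2 * n ≤ e ∧
    (n : ℝ) * Real.logb 2 n / 5 ≤ (h : ℝ) * K := by
  obtain ⟨a, ha⟩ : ∃ a, a = Nat.log 2 n := ⟨_, rfl⟩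
  have ha12 : 12 ≤ a := by
    rw [ha]
    have := Nat.log_mono_right (b := 2) hn
    rwa [show Nat.log 2 4096 = 12 by decide +kernel] at this
  have h1 : 2 ^ a ≤ n := by
    rw [ha]
    exact Nat.pow_log_le_self 2 (by omega)
  have h2 : n < 2 ^ (a + 1) := by
    rw [ha]
    exact Nat.lt_pow_succ_log_self (by norm_num) n
  obtain ⟨K, hK⟩ : ∃ K, K = a / 2 := ⟨_, rfl⟩
  have hK6 : 6 ≤ K := by omega
  have h3 : 2 ^ K * 2 ^ K ≤ n := by
    refine le_trans ?_ h1
    rw [← pow_add]
    exact Nat.pow_le_pow_right (by norm_num) (by omega)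
  have h4 : ∀ k, 6 ≤ k → 8 * k ≤ 2 ^ k := by
    intro k hk
    induction k, hk using Nat.le_induction with
    | base => norm_num
    | succ k hk ih =>
      rw [pow_succ]
      omega
  have h5 := h4 K hK6
  obtain ⟨W, hW⟩ : ∃ W, W = 2 ^ K := ⟨_, rfl⟩
  rw [← hW] at h3 h5
  have hW64 : 64 ≤ W := by
    rw [hW]
    calc 64 = 2 ^ 6 := by norm_num
      _ ≤ 2 ^ K := Nat.pow_le_pow_right (by norm_num) hK6
  have h6 : 8 * (W * K) ≤ n := by
    calc 8 * (W * K) = W * (8 * K) := by ring
      _ ≤ W * W := Nat.mul_le_mul_left _ h5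
      _ ≤ n := h3
  have h7 : 64 * W ≤ n := (Nat.mul_le_mul_right _ hW64).trans h3
  refine ⟨n / 2, K, 4 * n - n - n / 2 - W * K - K, ?_, ?_, ?_, ?_⟩
  · rw [← hW]
    omega
  · rw [← hW]
    omega
  · omega
  · have hn0 : (0 : ℝ) < n := by
      have : 0 < n := by omega
      exact_mod_cast this
    have hl : Real.logb 2 (n : ℝ) ≤ 2 * K + 2 := by
      have h6 : (n : ℝ) ≤ (2 : ℝ) ^ (a + 1) := by exact_mod_cast h2.le
      have h7 := Real.logb_le_logb_of_le (by norm_num : (1 : ℝ) < 2) hn0 h6
      rw [Real.logb_pow, Real.logb_self_eq_one (by norm_num)] at h7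
      have h8 : a ≤ 2 * K + 1 := by omega
      have h9 : (a : ℝ) ≤ 2 * K + 1 := by exact_mod_cast h8
      push_cast at h7
      linarith
    have h8 : (n : ℝ) ≤ 2 * ((n / 2 : ℕ) : ℝ) + 1 := by
      have : n ≤ 2 * (n / 2) + 1 := by omega
      exact_mod_cast this
    have hK6' : (6 : ℝ) ≤ K := by exact_mod_cast hK6
    have hn' : (4096 : ℝ) ≤ n := by exact_mod_cast hn
    have h9 : (n : ℝ) * Real.logb 2 n ≤ n * (2 * K + 2) := mul_le_mul_of_nonneg_left hl hn0.le
    have h10 : ((n : ℝ) - 1) / 2 * K ≤ ((n / 2 : ℕ) : ℝ) * K :=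
      mul_le_mul_of_nonneg_right (by linarith) (by linarith)
    nlinarith

/-- **The lower bound.** -/
theorem regular_bound (F : Type) [Field F] {n w : ℕ} (hn : 4096 ≤ n) (hw : 1 ≤ w)
    {Ω : Type} [Fintype Ω] (μ : Ω → ℝ) (hμ : Pool.Agent.TH697.Form.IsProb μ) (s : ℕ)
    (G : Ω → Fml (Fin (4 * n)) (fun _ => Fin n × Fin n) w (n ^ 2)) (hs : ∀ ω, (G ω).size ≤ s)
    (hG : Pool.Agent.TH697.Row.ApproximatesOn μ (fun ω => (G ω).accepts) (fun _ => True)
      (regular F)) : (n : ℝ) ^ 3 ≤ 12000000 * w ^ 3 * s ^ 2 := by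
  classical
  have hn' : (4096 : ℝ) ≤ n := by exact_mod_cast hn
  have hw' : (1 : ℝ) ≤ w := by exact_mod_cast hw
  have hs0 : (0 : ℝ) ≤ s := Nat.cast_nonneg s
  obtain ⟨l, hl'⟩ : ∃ l : ℝ, l = Real.logb 2 (n : ℝ) := ⟨_, rfl⟩
  have hl : 12 ≤ l := by
    rw [hl', Real.le_logb_iff_rpow_le (by norm_num) (by linarith)]
    norm_num
    exact hn
  obtain ⟨h, K, e, h1, h2, he, ht⟩ := params hn
  rw [← hl'] at ht
  by_cases hsm : n ^ 2 ≤ s
  · have h1 : (n : ℝ) ^ 2 ≤ s := by exact_mod_cast hsm
    have h2 : (n : ℝ) ^ 3 ≤ (s : ℝ) ^ 2 := by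
      calc (n : ℝ) ^ 3 ≤ ((n : ℝ) ^ 2) ^ 2 := by
            rw [← pow_mul]
            exact pow_le_pow_right₀ (by linarith) (by norm_num)
        _ ≤ (s : ℝ) ^ 2 := pow_le_pow_left₀ (by positivity) h1 2
    have h3 : (1 : ℝ) ≤ w ^ 3 := one_le_pow₀ hw'
    have h4 : (1 : ℝ) ≤ 12000000 * w ^ 3 := by nlinarith
    have h5 : 0 ≤ (s : ℝ) ^ 2 := by positivity
    nlinarith
  have hM : 4 * n ^ 2 * (5 * s + 1) + 2 + s ≤ n ^ 5 := by
    have h1 : s < n ^ 2 := by omega
    have h3 : 4 * n ^ 2 * (5 * s + 1) ≤ 4 * n ^ 2 * (5 * n ^ 2) :=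
      Nat.mul_le_mul_left _ (by omega)
    have h4 : 4 * n ^ 2 * (5 * n ^ 2) = 20 * n ^ 4 := by ring
    have h5 : n ^ 2 ≤ n ^ 4 := Nat.pow_le_pow_right (by omega) (by norm_num)
    have h6 : 4096 * n ^ 4 ≤ n ^ 5 := by
      calc 4096 * n ^ 4 ≤ n * n ^ 4 := Nat.mul_le_mul_right _ hn
        _ = n ^ 5 := by ring
    have h7 : 1 ≤ n ^ 4 := Nat.one_le_pow _ _ (by omega)
    omega
  have hLL : 1 + 5 * Real.logb 2 ((n ^ 5 : ℕ) : ℝ) +
      ((w : ℝ) - 1) * Real.logb 2 ((n ^ 2 : ℕ) : ℝ) ≤ 26 * w * l := by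
    rw [Nat.cast_pow n 5, Real.logb_pow, Nat.cast_pow n 2, Real.logb_pow, ← hl']
    have h5 : 0 ≤ ((w : ℝ) - 1) * l := mul_nonneg (by linarith) (by linarith)
    rw [show ((5 : ℕ) : ℝ) = 5 by norm_num, show ((2 : ℕ) : ℝ) = 2 by norm_num]
    nlinarith
  -- the vertices and the items
  have hcV : Fintype.card (V h K) = 2 + h + 2 ^ K + 2 * K := by
    simp only [V, Fintype.card_sum, Fintype.card_bool, Fintype.card_fin, Fintype.card_fun]
    omega
  obtain ⟨φ⟩ : Nonempty (V h K ↪ Fin n) := by
    apply Function.Embedding.nonempty_of_card_le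
    rw [hcV, Fintype.card_fin]
    exact h1
  have hcI : Fintype.card (It n h K e) = Fintype.card (Fin (4 * n)) := by
    simp only [It, Fintype.card_sum, Fintype.card_prod, Fintype.card_bool, Fintype.card_fin,
      Fintype.card_fun]
    omega
  have eq : It n h K e ≃ Fin (4 * n) := Fintype.equivOfCardEq hcI
  have h7 := bound_sq μ hμ G (fun _ => True) (regular F) hG s hs
    (Nat.one_le_pow _ _ (by omega)) hw (n ^ 2) (n ^ 5) hM 0 (by norm_num)
    ((univ : Finset (Fin e)).map (Function.Embedding.inl.trans eq.toEmbedding))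
    (T := Fin h × Fin K) (by
      intro a ha
      rw [mem_map] at ha
      obtain ⟨p, -, rfl⟩ := ha
      exact asks φ eq p) ((n : ℝ) * l / 5) (by nlinarith) (by
      rw [Fintype.card_prod, Fintype.card_fin, Fintype.card_fin]
      push_cast
      exact ht) (26 * w * l) hLL
  rw [card_map, card_univ, Fintype.card_fin] at h7
  have he' : 2 * (n : ℝ) ≤ e := by exact_mod_cast he
  have h8 : (2 * (n : ℝ)) ^ 2 * (n * l / 5) ≤ (e : ℝ) ^ 2 * (n * l / 5) :=
    mul_le_mul_of_nonneg_right (pow_le_pow_left₀ (by positivity) he' 2) (by positivity)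
  have h9 : l * (n : ℝ) ^ 3 ≤ l * (12000000 * w ^ 3 * s ^ 2) := by
    have e1 : (2 * (n : ℝ)) ^ 2 * (n * l / 5) = l * n ^ 3 * (4 / 5) := by ring
    have e2 : 360000 * (w : ℝ) ^ 2 * (26 * w * l) * s ^ 2 = l * (11700000 * w ^ 3 * s ^ 2) * (4 / 5) := by
      ring
    rw [e1] at h8
    rw [e2] at h7
    have h10 : 0 ≤ l * ((w : ℝ) ^ 3 * s ^ 2) := by positivity
    nlinarith
  exact le_of_mul_le_mul_left h9 (by linarith)

end Pool.Agent.L5helper59.CG.Sparse
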